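import Pool.Agent.H443_recip.Stage

set_option autoImplicit false

/-! The limit of the stages: `y` is normal in no base, `1 / y` is normal in every base. -/

namespace Pool.Agent.H443_recip

open Finset Filter Topology Pool.Agent.W28.NR

/-- relation between consecutive states `(Q, a)`, which stand for the intervals `[a / Q, (a + 1) / Q]` -/
def RelQ (j : ℕ) (s s' : ℕ × ℕ) : Prop :=
  ∃ r N A : ℕ, r = 2 + (Nat.unpair j).1 ∧ s'.1 = r ^ (N + N / 2) ∧ s'.2 = A * r ^ (N / 2) ∧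
    s.2 * r ^ N ≤ A * s.1 ∧ (A + 1) * s.1 ≤ (s.2 + 1) * r ^ N ∧ j + 1 ≤ N ∧
    s.1 ^ (j + 1) * (j + 2) ≤ s'.1 ∧
    ∀ b, 2 ≤ b → b ≤ j + 2 → ∀ h, 1 ≤ h → h ≤ j + 1 → ∀ M, Nat.log b s.1 ≤ M →
        M ≤ Nat.log b s'.1 →
        ‖∑ m ∈ Ico (Nat.log b s.1) M, ex (h * ((b : ℝ) ^ m * ((A : ℝ) / (r : ℝ) ^ N)⁻¹))‖
          ≤ 1 / ((j : ℝ) + 1) * M

lemma exists_statesQ : ∃ f : ℕ → ℕ × ℕ, (∀ j, 1 ≤ (f j).1 ∧ (f j).1 ≤ 2 * (f j).2 ∧ (f j).2 < (f j).1) ∧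
      ∀ j, RelQ j (f j) (f (j + 1)) := by
  have hS : ∀ j : ℕ, ∃ Q0 : ℕ, ∀ Q a : ℕ, Q0 ≤ Q → Q ≤ 2 * a → a < Q →
    ∀ r : ℕ, 2 ≤ r → ∀ N0 : ℕ, ∃ N A : ℕ, N0 ≤ N ∧ a * r ^ N ≤ A * Q ∧
      (A + 1) * Q ≤ (a + 1) * r ^ N ∧
      ∀ b, 2 ≤ b → b ≤ j + 2 → ∀ h, 1 ≤ h → h ≤ j + 1 → ∀ M, Nat.log b Q ≤ M →
        M ≤ Nat.log b (r ^ (N + N / 2)) →
        ‖∑ m ∈ Ico (Nat.log b Q) M, ex (h * ((b : ℝ) ^ m * ((A : ℝ) / (r : ℝ) ^ N)⁻¹))‖ ≤
          1 / ((j : ℝ) + 1) * M := fun j => stage (j + 2) (j + 1) (1 / ((j : ℝ) + 1)) (by positivity)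
  choose g hg using hS
  obtain ⟨f, hf1, hf2⟩ := exists_seq
    (fun j (s : ℕ × ℕ) => g j ≤ s.1 ∧ s.1 ≤ 2 * s.2 ∧ s.2 < s.1) RelQ
    (by
      refine ⟨(g 0 + 2, g 0 + 1), ?_, ?_, ?_⟩ <;> simp only <;> omega)
    (by
      rintro j ⟨Q, a⟩ ⟨h1, h2, h3⟩
      simp only at h1 h2 h3
      set r := 2 + (Nat.unpair j).1 with hr
      have hr2 : 2 ≤ r := by omega
      obtain ⟨N, A, hN0, hA1, hA2, hb⟩ := hg j Q a h1 h2 h3 r hr2
        (g (j + 1) + Q ^ (j + 1) * (j + 2) + (j + 1))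
      have hQpos : 0 < Q := by omega
      have hNlt : N < r ^ (N + N / 2) :=
        lt_of_lt_of_le (Nat.lt_pow_self (by omega : 1 < r)) (Nat.pow_le_pow_right (by omega) (by omega))
      refine ⟨(r ^ (N + N / 2), A * r ^ (N / 2)), ⟨?_, ?_, ?_⟩, ?_⟩
      · simp only; omega
      · simp only
        have h4 : r ^ N ≤ 2 * A := by
          have : r ^ N * Q ≤ (2 * A) * Q := by
            calc r ^ N * Q ≤ r ^ N * (2 * a) := Nat.mul_le_mul_left _ h2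
              _ = 2 * (a * r ^ N) := by ring
              _ ≤ 2 * (A * Q) := Nat.mul_le_mul_left _ hA1
              _ = _ := by ring
          exact Nat.le_of_mul_le_mul_right this hQpos
        rw [pow_add]
        calc r ^ N * r ^ (N / 2) ≤ 2 * A * r ^ (N / 2) := Nat.mul_le_mul_right _ h4
          _ = _ := by ring
      · simp only
        have h4 : A + 1 ≤ r ^ N := by
          have : (A + 1) * Q ≤ r ^ N * Q := by
            calc (A + 1) * Q ≤ (a + 1) * r ^ N := hA2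
              _ ≤ Q * r ^ N := Nat.mul_le_mul_right _ h3
              _ = _ := by ring
          exact Nat.le_of_mul_le_mul_right this hQpos
        rw [pow_add]
        apply Nat.mul_lt_mul_of_pos_right _ (by positivity)
        omega
      · refine ⟨r, N, A, rfl, rfl, rfl, hA1, hA2, by omega, ?_, ?_⟩
        · simp only; omega
        · exact hb)
  refine ⟨f, fun j => ⟨?_, (hf1 j).2.1, (hf1 j).2.2⟩, hf2⟩
  have := (hf1 j).2.2
  omega

/-- lower end of the interval -/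
noncomputable def YQ (s : ℕ × ℕ) : ℝ := (s.2 : ℝ) / s.1
/-- upper end of the interval -/
noncomputable def UQ (s : ℕ × ℕ) : ℝ := ((s.2 : ℝ) + 1) / s.1

lemma UQ_eq (s : ℕ × ℕ) : UQ s = YQ s + 1 / s.1 := by
  unfold YQ UQ; rw [← add_div]

lemma YQ_le_UQ (s : ℕ × ℕ) : YQ s ≤ UQ s := by
  rw [UQ_eq]; have : (0 : ℝ) ≤ 1 / s.1 := by positivity
  linarith

lemma nestedQ (j : ℕ) (s s' : ℕ × ℕ) (hs : 1 ≤ s.1) (h : RelQ j s s') :
    YQ s ≤ YQ s' ∧ UQ s' ≤ UQ s := by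
  obtain ⟨r, N, A, h1, h2, h3, h4, h5, h6, h7, -⟩ := h
  have hr : 2 ≤ r := by omega
  have hr1 : (1 : ℝ) ≤ r := by
    have : 1 ≤ r := by omega
    exact_mod_cast this
  have hr0 : (0 : ℝ) < (r : ℝ) := by linarith
  have h4' : (s.2 : ℝ) * (r : ℝ) ^ N ≤ A * s.1 := by exact_mod_cast h4
  have h5' : ((A : ℝ) + 1) * s.1 ≤ ((s.2 : ℝ) + 1) * (r : ℝ) ^ N := by exact_mod_cast h5
  have hs0 : (0 : ℝ) < s.1 := by exact_mod_cast hs
  have p1 : (0 : ℝ) < (r : ℝ) ^ N := by positivity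
  have p2 : (1 : ℝ) ≤ (r : ℝ) ^ (N / 2) := one_le_pow₀ hr1
  have p3 : (0 : ℝ) < (r : ℝ) ^ (N / 2) := by positivity
  unfold YQ UQ
  rw [h2, h3]
  push_cast
  rw [pow_add]
  constructor
  · rw [div_le_div_iff₀ hs0 (by positivity)]
    calc (s.2 : ℝ) * ((r : ℝ) ^ N * (r : ℝ) ^ (N / 2)) = (s.2 * (r : ℝ) ^ N) * (r : ℝ) ^ (N / 2) := by ring
      _ ≤ (A * s.1) * (r : ℝ) ^ (N / 2) := by gcongr
      _ = _ := by ring
  · rw [div_le_div_iff₀ (by positivity) hs0]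
    calc ((A : ℝ) * (r : ℝ) ^ (N / 2) + 1) * s.1
        ≤ ((A : ℝ) * (r : ℝ) ^ (N / 2) + (r : ℝ) ^ (N / 2)) * s.1 := by gcongr
      _ = (((A : ℝ) + 1) * s.1) * (r : ℝ) ^ (N / 2) := by ring
      _ ≤ (((s.2 : ℝ) + 1) * (r : ℝ) ^ N) * (r : ℝ) ^ (N / 2) := by gcongr
      _ = _ := by ring

section limit

variable {f : ℕ → ℕ × ℕ}

lemma exists_limitQ (hf0 : ∀ j, 1 ≤ (f j).1 ∧ (f j).1 ≤ 2 * (f j).2 ∧ (f j).2 < (f j).1)
    (hf : ∀ j, RelQ j (f j) (f (j + 1))) :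
    ∃ y : ℝ, ∀ j, YQ (f j) ≤ y ∧ y ≤ UQ (f j) := by
  have hmono : Monotone (fun j => YQ (f j)) :=
    monotone_nat_of_le_succ (fun j => (nestedQ j _ _ (hf0 j).1 (hf j)).1)
  have hanti : Antitone (fun j => UQ (f j)) :=
    antitone_nat_of_succ_le (fun j => (nestedQ j _ _ (hf0 j).1 (hf j)).2)
  have hle : ∀ i j, YQ (f i) ≤ UQ (f j) := by
    intro i j
    calc YQ (f i) ≤ YQ (f (max i j)) := hmono (le_max_left _ _)
      _ ≤ UQ (f (max i j)) := YQ_le_UQ _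
      _ ≤ UQ (f j) := hanti (le_max_right _ _)
  have hbdd : BddAbove (Set.range (fun j => YQ (f j))) := by
    refine ⟨UQ (f 0), ?_⟩
    rintro _ ⟨i, rfl⟩
    exact hle i 0
  exact ⟨⨆ j, YQ (f j), fun j => ⟨le_ciSup hbdd j, ciSup_le (fun i => hle i j)⟩⟩

lemma YQ_half (hf0 : ∀ j, 1 ≤ (f j).1 ∧ (f j).1 ≤ 2 * (f j).2 ∧ (f j).2 < (f j).1) (j : ℕ) :
    1 / 2 ≤ YQ (f j) ∧ UQ (f j) ≤ 1 := by
  obtain ⟨h1, h2, h3⟩ := hf0 j
  have p : (0 : ℝ) < (f j).1 := by exact_mod_cast h1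
  have h2' : ((f j).1 : ℝ) ≤ 2 * (f j).2 := by exact_mod_cast h2
  have h3' : ((f j).2 : ℝ) + 1 ≤ (f j).1 := by exact_mod_cast h3
  unfold YQ UQ
  constructor
  · rw [le_div_iff₀ p]; linarith
  · rw [div_le_one p]; exact h3'

lemma log_step (hf0 : ∀ j, 1 ≤ (f j).1 ∧ (f j).1 ≤ 2 * (f j).2 ∧ (f j).2 < (f j).1)
    (hf : ∀ j, RelQ j (f j) (f (j + 1))) (b j : ℕ) (hb : 2 ≤ b) (hbj : b ≤ j + 2) :
    (j + 1) * Nat.log b (f j).1 + 1 ≤ Nat.log b (f (j + 1)).1 := by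
  obtain ⟨r, N, A, -, -, -, -, -, -, h7, -⟩ := hf j
  apply Nat.le_log_of_pow_le (by omega)
  refine le_trans ?_ h7
  have h1 : b ^ (Nat.log b (f j).1) ≤ (f j).1 := Nat.pow_log_le_self _ (by have := (hf0 j).1; omega)
  calc b ^ ((j + 1) * Nat.log b (f j).1 + 1) = (b ^ (Nat.log b (f j).1)) ^ (j + 1) * b := by
        rw [pow_succ, ← pow_mul]; congr 2; ring
    _ ≤ (f j).1 ^ (j + 1) * (j + 2) := Nat.mul_le_mul (Nat.pow_le_pow_left h1 _) hbj

/-- a sum over a range of exponents at the limit point -/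
lemma sum_limitQ (hf0 : ∀ j, 1 ≤ (f j).1 ∧ (f j).1 ≤ 2 * (f j).2 ∧ (f j).2 < (f j).1)
    (hf : ∀ j, RelQ j (f j) (f (j + 1))) (y : ℝ)
    (hy : ∀ j, YQ (f j) ≤ y ∧ y ≤ UQ (f j)) (b j h M : ℕ) (hb : 2 ≤ b) (hbj : b ≤ j + 2)
    (hh1 : 1 ≤ h) (hh2 : h ≤ j + 1)
    (hM1 : Nat.log b (f j).1 ≤ M) (hM2 : M ≤ Nat.log b (f (j + 1)).1) :
    ‖∑ m ∈ Ico (Nat.log b (f j).1) M, ex (h * ((b : ℝ) ^ m * y⁻¹))‖ ≤
      1 / ((j : ℝ) + 1) * M + 2 * Real.pi * h * 4 := by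
  have hrel := hf j
  have hnest := hy (j + 1)
  have hhalf := YQ_half hf0 (j + 1)
  have hs'1 := (hf0 (j + 1)).1
  obtain ⟨r, N, A, h1, h2, h3, h4, h5, h6, h7, h8⟩ := hrel
  have hbd := h8 b hb hbj h hh1 hh2 M hM1 hM2
  have hr0 : (0 : ℝ) < (r : ℝ) := by
    have : 0 < r := by omega
    exact_mod_cast this
  have hb2 : (2 : ℝ) ≤ b := by exact_mod_cast hb
  set s' := f (j + 1) with hs'
  have hs'0 : (0 : ℝ) < s'.1 := by exact_mod_cast hs'1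
  have hYb : YQ s' = (A : ℝ) / (r : ℝ) ^ N := by
    unfold YQ
    rw [h2, h3]
    push_cast
    rw [pow_add]
    field_simp
  have hdist : |y - YQ s'| ≤ 1 / s'.1 := by
    have := UQ_eq s'
    rw [abs_of_nonneg (by linarith [hnest.1])]
    linarith [hnest.2]
  have hy1 : 1 / 2 ≤ y := by linarith [hnest.1, hhalf.1]
  have hφ : |y⁻¹ - (YQ s')⁻¹| ≤ 4 * (1 / s'.1) := by
    have hY1 := hhalf.1
    rw [inv_sub_inv (by linarith) (by linarith), abs_div, div_le_iff₀ (by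
      apply abs_pos.2; apply mul_ne_zero <;> linarith)]
    rw [abs_of_pos (by nlinarith : 0 < y * YQ s'), abs_sub_comm]
    have h9 : 1 ≤ 4 * (y * YQ s') := by nlinarith
    have h10 : (0 : ℝ) ≤ 1 / s'.1 := by positivity
    nlinarith
  have hdiff : ‖∑ m ∈ Ico (Nat.log b (f j).1) M, ex (h * ((b : ℝ) ^ m * y⁻¹)) -
      ∑ m ∈ Ico (Nat.log b (f j).1) M, ex (h * ((b : ℝ) ^ m * (YQ s')⁻¹))‖ ≤ 2 * Real.pi * h * 4 := by
    rw [← sum_sub_distrib]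
    refine (norm_sum_le _ _).trans ?_
    have hterm : ∀ m ∈ Ico (Nat.log b (f j).1) M, ‖ex (h * ((b : ℝ) ^ m * y⁻¹)) -
        ex (h * ((b : ℝ) ^ m * (YQ s')⁻¹))‖ ≤ 2 * Real.pi * h * 4 / s'.1 * (b : ℝ) ^ m := by
      intro m _
      refine (norm_ex_sub_le _ _).trans ?_
      have e : (h : ℝ) * ((b : ℝ) ^ m * y⁻¹) - h * ((b : ℝ) ^ m * (YQ s')⁻¹)
          = (h * (b : ℝ) ^ m) * (y⁻¹ - (YQ s')⁻¹) := by ring
      rw [e, abs_mul, abs_of_nonneg (by positivity : (0 : ℝ) ≤ h * (b : ℝ) ^ m)]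
      calc 2 * Real.pi * ((h * (b : ℝ) ^ m) * |y⁻¹ - (YQ s')⁻¹|)
          ≤ 2 * Real.pi * ((h * (b : ℝ) ^ m) * (4 * (1 / s'.1))) := by
            have := Real.pi_pos
            gcongr
        _ = _ := by ring
    refine (sum_le_sum hterm).trans ?_
    rw [← mul_sum]
    have hgeo : ∑ m ∈ Ico (Nat.log b (f j).1) M, (b : ℝ) ^ m ≤ s'.1 := by
      calc ∑ m ∈ Ico (Nat.log b (f j).1) M, (b : ℝ) ^ m ≤ ∑ m ∈ range M, (b : ℝ) ^ m := by
            apply sum_le_sum_of_subset_of_nonneg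
            · intro m hm; rw [mem_Ico] at hm; rw [mem_range]; omega
            · intro m _ _; positivity
        _ ≤ (b : ℝ) ^ M := by
            rw [geom_sum_eq (by linarith)]
            rw [div_le_iff₀ (by linarith)]
            have : (0 : ℝ) < (b : ℝ) ^ M := by positivity
            nlinarith
        _ ≤ s'.1 := by
            have h9 : b ^ M ≤ s'.1 :=
              (Nat.pow_le_pow_right (by omega) hM2).trans (Nat.pow_log_le_self _ (by omega))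
            exact_mod_cast h9
    calc 2 * Real.pi * h * 4 / s'.1 * ∑ m ∈ Ico (Nat.log b (f j).1) M, (b : ℝ) ^ m
        ≤ 2 * Real.pi * h * 4 / s'.1 * s'.1 := by
          apply mul_le_mul_of_nonneg_left hgeo
          have := Real.pi_pos
          positivity
      _ = 2 * Real.pi * h * 4 := by field_simp
  rw [hYb] at hdiff
  calc ‖∑ m ∈ Ico (Nat.log b (f j).1) M, ex (h * ((b : ℝ) ^ m * y⁻¹))‖
      = ‖(∑ m ∈ Ico (Nat.log b (f j).1) M, ex (h * ((b : ℝ) ^ m * ((A : ℝ) / (r : ℝ) ^ N)⁻¹))) +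
        (∑ m ∈ Ico (Nat.log b (f j).1) M, ex (h * ((b : ℝ) ^ m * y⁻¹)) -
      ∑ m ∈ Ico (Nat.log b (f j).1) M, ex (h * ((b : ℝ) ^ m * ((A : ℝ) / (r : ℝ) ^ N)⁻¹)))‖ := by
        congr 1; ring
    _ ≤ _ := (norm_add_le _ _).trans (add_le_add hbd hdiff)

theorem normal_inv (hf0 : ∀ j, 1 ≤ (f j).1 ∧ (f j).1 ≤ 2 * (f j).2 ∧ (f j).2 < (f j).1)
    (hf : ∀ j, RelQ j (f j) (f (j + 1))) (y : ℝ)
    (hy : ∀ j, YQ (f j) ≤ y ∧ y ≤ UQ (f j)) (b : ℕ) (hb : 2 ≤ b) : NormalBase b y⁻¹ := by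
  apply normal_of_weyl b hb
  intro h hh1
  rw [Metric.tendsto_atTop]
  intro η hη
  set Ch : ℝ := 2 * Real.pi * h * 4 with hCh
  have hCh0 : 0 ≤ Ch := by have := Real.pi_pos; positivity
  obtain ⟨J, hJ⟩ := exists_nat_gt (max (8 / η) (h + b))
  have hJ1 : 8 / η < J := lt_of_le_of_lt (le_max_left _ _) hJ
  have hJ2 : (h : ℝ) + b < J := lt_of_le_of_lt (le_max_right _ _) hJ
  have hJ3 : h + b < J := by exact_mod_cast hJ2
  obtain ⟨M0, hM0⟩ := exists_nat_gt (8 * Ch / η)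
  set L : ℕ → ℕ := fun k => Nat.log b (f (J + k)).1 with hL
  have hstep : ∀ k, (J + k + 1) * L k + 1 ≤ L (k + 1) := fun k =>
    log_step hf0 hf b (J + k) hb (by omega)
  have hLlt : ∀ k, L k < L (k + 1) := by
    intro k
    have h1 := hstep k
    have h2 : L k ≤ (J + k + 1) * L k := Nat.le_mul_of_pos_left _ (by omega)
    omega
  refine ⟨max (L 1) (M0 + 1), fun M hM => ?_⟩
  have hM1 : L 1 ≤ M := (le_max_left _ _).trans hM
  have hM2 : M0 + 1 ≤ M := (le_max_right _ _).trans hM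
  have hMpos : (0 : ℝ) < M := by
    have : 0 < M := by omega
    exact_mod_cast this
  obtain ⟨k, hk1, hj1, hj2⟩ := find_index L hLlt 1 M hM1
  obtain ⟨i, rfl⟩ : ∃ i, k = i + 1 := ⟨k - 1, by omega⟩
  -- split the sum
  have hs1 : ∑ m ∈ range M, ex (h * ((b : ℝ) ^ m * y⁻¹)) =
      ∑ m ∈ range (L i), ex (h * ((b : ℝ) ^ m * y⁻¹)) +
      (∑ m ∈ Ico (L i) (L (i + 1)), ex (h * ((b : ℝ) ^ m * y⁻¹)) +
       ∑ m ∈ Ico (L (i + 1)) M, ex (h * ((b : ℝ) ^ m * y⁻¹))) := by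
    rw [sum_Ico_consecutive _ (hLlt i).le hj1, sum_range_add_sum_Ico _ ((hLlt i).le.trans hj1)]
  have hb1 : ‖∑ m ∈ range (L i), ex (h * ((b : ℝ) ^ m * y⁻¹))‖ ≤ L i := by
    refine (norm_sum_le _ _).trans ?_
    simp [norm_ex]
  have hb2 : ‖∑ m ∈ Ico (L i) (L (i + 1)), ex (h * ((b : ℝ) ^ m * y⁻¹))‖ ≤
      1 / (((J + i : ℕ) : ℝ) + 1) * (L (i + 1) : ℕ) + Ch :=
    sum_limitQ hf0 hf y hy b (J + i) h (L (i + 1)) hb (by omega) hh1 (by omega) (hLlt i).le le_rfl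
  have hb3 : ‖∑ m ∈ Ico (L (i + 1)) M, ex (h * ((b : ℝ) ^ m * y⁻¹))‖ ≤
      1 / (((J + (i + 1) : ℕ) : ℝ) + 1) * M + Ch :=
    sum_limitQ hf0 hf y hy b (J + (i + 1)) h M hb (by omega) hh1 (by omega) hj1 hj2.le
  have hJi : (8 : ℝ) / η < ((J + i : ℕ) : ℝ) + 1 := by
    have : (J : ℝ) ≤ ((J + i : ℕ) : ℝ) := by exact_mod_cast (by omega : J ≤ J + i)
    linarith
  have hLi : (((J + i : ℕ) : ℝ) + 1) * (L i : ℕ) ≤ M := by
    have h1 := hstep i
    have h2 : (J + i + 1) * L i ≤ M := by omega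
    exact_mod_cast h2
  have hi0 : (0 : ℝ) < ((J + i : ℕ) : ℝ) + 1 := by positivity
  have hinv : 1 / (((J + i : ℕ) : ℝ) + 1) ≤ η / 8 := by
    rw [div_le_iff₀ hi0]
    rw [div_lt_iff₀ hη] at hJi
    nlinarith
  have hinv2 : 1 / (((J + (i + 1) : ℕ) : ℝ) + 1) ≤ η / 8 := by
    refine le_trans ?_ hinv
    apply one_div_le_one_div_of_le hi0
    push_cast; linarith
  have hb1' : ((L i : ℕ) : ℝ) ≤ η / 8 * M := by
    have : ((L i : ℕ) : ℝ) ≤ 1 / (((J + i : ℕ) : ℝ) + 1) * M := by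
      rw [div_mul_eq_mul_div, one_mul, le_div_iff₀ hi0]; linarith
    exact this.trans (mul_le_mul_of_nonneg_right hinv hMpos.le)
  have hb2' : 1 / (((J + i : ℕ) : ℝ) + 1) * ((L (i + 1) : ℕ) : ℝ) ≤ η / 8 * M := by
    have : ((L (i + 1) : ℕ) : ℝ) ≤ M := by exact_mod_cast hj1
    exact mul_le_mul hinv this (Nat.cast_nonneg _) (by positivity)
  have hb3' : 1 / (((J + (i + 1) : ℕ) : ℝ) + 1) * (M : ℝ) ≤ η / 8 * M :=
    mul_le_mul_of_nonneg_right hinv2 hMpos.le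
  have hCM : Ch ≤ η / 8 * M := by
    have : (M0 : ℝ) ≤ M := by
      have : M0 ≤ M := by omega
      exact_mod_cast this
    have h5 : 8 * Ch / η < M := lt_of_lt_of_le hM0 this
    rw [div_lt_iff₀ hη] at h5
    linarith
  have htot : ‖∑ m ∈ range M, ex (h * ((b : ℝ) ^ m * y⁻¹))‖ ≤ 5 / 8 * η * M := by
    rw [hs1]
    refine (norm_add_le _ _).trans ?_
    have := norm_add_le (∑ m ∈ Ico (L i) (L (i + 1)), ex (h * ((b : ℝ) ^ m * y⁻¹)))
      (∑ m ∈ Ico (L (i + 1)) M, ex (h * ((b : ℝ) ^ m * y⁻¹)))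
    linarith
  rw [dist_zero_right, norm_div]
  have hMn : ‖(M : ℂ)‖ = M := by simp
  rw [hMn, div_lt_iff₀ hMpos]
  nlinarith

theorem not_normalQ (hf0 : ∀ j, 1 ≤ (f j).1 ∧ (f j).1 ≤ 2 * (f j).2 ∧ (f j).2 < (f j).1)
    (hf : ∀ j, RelQ j (f j) (f (j + 1))) (y : ℝ)
    (hy : ∀ j, YQ (f j) ≤ y ∧ y ≤ UQ (f j)) (b : ℕ) (hb : 2 ≤ b) : ¬ NormalBase b y := by
  intro hn
  have hb2 : (2 : ℝ) ≤ b := by exact_mod_cast hb
  have hb0 : (0 : ℝ) < (b : ℝ) := by positivity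
  have hlim := hn 4 (by omega) 0 le_rfl (by positivity)
  rw [Metric.tendsto_atTop] at hlim
  obtain ⟨M1, hM1⟩ := hlim (1 / 16) (by positivity)
  -- choose a large stage with base `b`
  set j := Nat.pair (b - 2) (max M1 100) with hj
  have hjge : max M1 100 ≤ j := Nat.right_le_pair _ _
  have hstage := hf j
  have hyj := hy (j + 1)
  obtain ⟨r, N, A, h1, h2, h3, h4, h5, h6, h7, -⟩ := hstage
  have hrb : r = b := by
    rw [h1, hj, Nat.unpair_pair]; simp only; omega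
  subst hrb
  set s' := f (j + 1) with hs'
  set t := N / 2 with ht
  set E := N + t with hE
  have hN100 : 101 ≤ N := by
    have : 100 ≤ max M1 100 := le_max_right _ _
    omega
  have hM1' : M1 ≤ E := by
    have : M1 ≤ max M1 100 := le_max_left _ _
    omega
  have hfreq := hM1 E hM1'
  rw [Real.dist_eq] at hfreq
  have hfreq2 := (abs_lt.1 hfreq).2
  -- lower bound for the count
  have hcount : t - 4 ≤ ((Finset.range E).filter
      (fun n : ℕ => ⌊(r : ℝ) ^ (n + 4) * y⌋ % (r : ℤ) ^ 4 = 0)).card := by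
    have hsub : Ico N (E - 4) ⊆ (Finset.range E).filter
        (fun n : ℕ => ⌊(r : ℝ) ^ (n + 4) * y⌋ % (r : ℤ) ^ 4 = 0) := by
      intro n hn
      rw [mem_Ico] at hn
      rw [mem_filter, mem_range]
      refine ⟨by omega, ?_⟩
      have hYb : YQ s' = (A : ℝ) / (r : ℝ) ^ N := by
        unfold YQ
        rw [h2, h3]
        push_cast
        rw [hE, pow_add]
        field_simp
      have hU := UQ_eq s'
      have e1 : (r : ℝ) ^ (n + 4) * ((A : ℝ) / (r : ℝ) ^ N)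
          = (((A : ℤ) * (r : ℤ) ^ (n - N) * (r : ℤ) ^ 4 : ℤ) : ℝ) := by
        have : (r : ℝ) ^ (n + 4) = (r : ℝ) ^ N * ((r : ℝ) ^ (n - N) * (r : ℝ) ^ 4) := by
          rw [← pow_add, ← pow_add]; congr 1; omega
        rw [this]; push_cast; field_simp
      have hfl : ⌊(r : ℝ) ^ (n + 4) * y⌋ = (A : ℤ) * (r : ℤ) ^ (n - N) * (r : ℤ) ^ 4 := by
        rw [Int.floor_eq_iff]
        have hp : (0 : ℝ) < (r : ℝ) ^ (n + 4) := by positivity
        constructor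
        · rw [← e1, ← hYb]
          exact mul_le_mul_of_nonneg_left hyj.1 hp.le
        · rw [← e1, ← hYb]
          have h7 : (r : ℝ) ^ (n + 4) * y ≤ (r : ℝ) ^ (n + 4) * (YQ s' + 1 / s'.1) := by
            apply mul_le_mul_of_nonneg_left _ hp.le
            linarith [hyj.2]
          have h8 : (r : ℝ) ^ (n + 4) * (1 / s'.1) < 1 := by
            have h9 : ((s'.1 : ℕ) : ℝ) = (r : ℝ) ^ E := by rw [h2]; push_cast; rfl
            rw [h9, mul_one_div, div_lt_one (by positivity)]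
            apply pow_lt_pow_right₀ (by linarith)
            omega
          rw [mul_add] at h7
          linarith
      rw [hfl]
      exact Int.mul_emod_left _ _
    have := card_le_card hsub
    rw [Nat.card_Ico] at this
    omega
  have hEpos : (0 : ℝ) < E := by
    have : 0 < E := by omega
    exact_mod_cast this
  have hc : ((t : ℝ) - 4) / E ≤ (((Finset.range E).filter
      (fun n : ℕ => ⌊(r : ℝ) ^ (n + 4) * y⌋ % (r : ℤ) ^ 4 = 0)).card : ℝ) / E := by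
    apply div_le_div_of_nonneg_right _ hEpos.le
    have h9 : ((t - 4 : ℕ) : ℝ) ≤ (((Finset.range E).filter
      (fun n : ℕ => ⌊(r : ℝ) ^ (n + 4) * y⌋ % (r : ℤ) ^ 4 = 0)).card : ℝ) := by
      exact_mod_cast hcount
    rw [Nat.cast_sub (by omega)] at h9
    push_cast at h9
    exact h9
  have hlow : (1 : ℝ) / 4 ≤ ((t : ℝ) - 4) / E := by
    rw [div_le_div_iff₀ (by norm_num) hEpos]
    have a1 : (E : ℝ) ≤ 3 * t + 1 := by
      have : E ≤ 3 * t + 1 := by omega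
      exact_mod_cast this
    have a2 : (50 : ℝ) ≤ t := by
      have : 50 ≤ t := by omega
      exact_mod_cast this
    linarith
  have hup : 1 / (r : ℝ) ^ 4 ≤ 1 / 16 := by
    apply one_div_le_one_div_of_le (by norm_num)
    calc (16 : ℝ) = 2 ^ 4 := by norm_num
      _ ≤ (r : ℝ) ^ 4 := pow_le_pow_left₀ (by norm_num) hb2 4
  linarith

end limit

/-- There is a real number which is normal in every base and whose reciprocal is normal in no base. -/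
theorem recip_all : ∃ x : ℝ, (∀ b : ℕ, 2 ≤ b → NormalBase b x) ∧ ∀ b : ℕ, 2 ≤ b → ¬ NormalBase b x⁻¹ := by
  obtain ⟨f, hf0, hf⟩ := exists_statesQ
  obtain ⟨y, hy⟩ := exists_limitQ hf0 hf
  refine ⟨y⁻¹, fun b hb => normal_inv hf0 hf y hy b hb, fun b hb => ?_⟩
  rw [inv_inv]
  exact not_normalQ hf0 hf y hy b hb

end Pool.Agent.H443_recip
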