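import Pool.Agent.W28.NRCheb

set_option autoImplicit false

/-! A Chebyshev bound for one family of exponential sums, with an explicit exceptional set. -/

namespace Pool.Agent.H443_recip

open Finset Pool.Agent.W28.NR

open Classical in
theorem cheb1 (P s e : ℕ) (F : ℕ → ℕ → ℂ) (hF : ∀ m p, ‖F m p‖ = 1)
    (C κ ε : ℝ) (hC : 0 ≤ C) (hκ : 0 ≤ κ) (hε : 0 < ε)
    (hκe : κ * ((e - s : ℕ) : ℝ) ^ 2 ≤ 1)
    (q : ℕ) (hq : 1 ≤ q) (hqs : q ^ 2 ≤ s)
    (hqe : 3 / ε ≤ q)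
    (hD : ∀ m' m, s ≤ m' → m' < m → m < e →
      ‖∑ p ∈ range P, F m p * (starRingEnd ℂ) (F m' p)‖ ≤ P * (C / 2 ^ (m - s) + κ)) :
    ∃ U : Finset ℕ, (U.card : ℝ) ≤ P * (4 * C + 1) / ε ^ 2 * (4 / q) ∧
      ∀ p ∈ range P, p ∉ U → ∀ M, s ≤ M → M ≤ e →
      ‖∑ m ∈ Ico s M, F m p‖ ≤ 2 * ε * M := by
  have hqr : (1 : ℝ) ≤ q := by exact_mod_cast hq
  have hqs' : (q : ℝ) ^ 2 ≤ s := by exact_mod_cast hqs
  have hs1 : (1 : ℝ) ≤ s := by nlinarith
  -- the bad sets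
  set Bad : ℕ → Finset ℕ := fun k =>
    (range P).filter (fun p => ε * (s + (k : ℝ) ^ 2) < ‖∑ m ∈ Ico s (s + k ^ 2), F m p‖) with hBad
  have hbad : ∀ k, s + k ^ 2 ≤ e →
      ((Bad k).card : ℝ) ≤ P * (4 * C + 1) / ε ^ 2 * (1 / (s + (k : ℝ) ^ 2)) := by
    intro k hk
    have h1 := second_moment P s (k ^ 2) F hF C κ hκ
      (fun m' m a b c => hD m' m a b (by omega))
    have h2 : ((Bad k).card : ℝ) * (ε * (s + (k : ℝ) ^ 2)) ^ 2 ≤
        ∑ p ∈ range P, ‖∑ m ∈ Ico s (s + k ^ 2), F m p‖ ^ 2 := by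
      rw [← nsmul_eq_mul]
      refine le_trans (card_nsmul_le_sum (Bad k) _ _ ?_) (sum_le_sum_of_subset_of_nonneg
        (filter_subset _ _) (fun _ _ _ => by positivity))
      intro p hp
      simp only [hBad, mem_filter] at hp
      exact pow_le_pow_left₀ (by positivity) hp.2.le 2
    have h3 : ((k ^ 2 : ℕ) : ℝ) + (4 * C - 4 * C * (((k ^ 2 : ℕ) : ℝ) + 1) / 2 ^ (k ^ 2))
        + κ * ((k ^ 2 : ℕ) : ℝ) ^ 2 ≤ (4 * C + 1) * (s + (k : ℝ) ^ 2) := by
      have a1 : κ * ((k ^ 2 : ℕ) : ℝ) ^ 2 ≤ 1 := by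
        refine le_trans ?_ hκe
        apply mul_le_mul_of_nonneg_left _ hκ
        apply pow_le_pow_left₀ (by positivity)
        have : k ^ 2 ≤ e - s := by omega
        exact_mod_cast this
      have a2 : 0 ≤ 4 * C * (((k ^ 2 : ℕ) : ℝ) + 1) / 2 ^ (k ^ 2) := by positivity
      have a3 : ((k ^ 2 : ℕ) : ℝ) = (k : ℝ) ^ 2 := by push_cast; ring
      rw [a3] at a1 a2 ⊢
      nlinarith [sq_nonneg (k : ℝ), mul_nonneg hC (sq_nonneg (k : ℝ)), mul_nonneg hC (by linarith : (0:ℝ) ≤ s - 1)]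
    have h4 : ((Bad k).card : ℝ) * (ε * (s + (k : ℝ) ^ 2)) ^ 2 ≤
        P * ((4 * C + 1) * (s + (k : ℝ) ^ 2)) :=
      h2.trans (h1.trans (mul_le_mul_of_nonneg_left h3 (by positivity)))
    have hsk : 0 < (s : ℝ) + (k : ℝ) ^ 2 := by positivity
    have e1 : P * (4 * C + 1) / ε ^ 2 * (1 / (s + (k : ℝ) ^ 2))
        = P * ((4 * C + 1) * (s + (k : ℝ) ^ 2)) / (ε * (s + (k : ℝ) ^ 2)) ^ 2 := by
      field_simp
    rw [e1, le_div_iff₀ (by positivity)]
    exact h4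
  -- the union of the bad sets
  set KK := (range (e + 1)).filter (fun k => s + k ^ 2 ≤ e) with hKK
  set U : Finset ℕ := KK.biUnion (fun k => Bad k) with hU
  refine ⟨U, ?_, ?_⟩
  · have h1 : (U.card : ℝ) ≤ ∑ k ∈ KK, ((Bad k).card : ℝ) := by
      have : U.card ≤ ∑ k ∈ KK, (Bad k).card := card_biUnion_le
      exact_mod_cast this
    refine h1.trans ?_
    calc ∑ k ∈ KK, ((Bad k).card : ℝ)
        ≤ ∑ k ∈ KK, P * (4 * C + 1) / ε ^ 2 * (1 / (s + (k : ℝ) ^ 2)) := by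
          apply sum_le_sum
          intro k hk
          rw [hKK, mem_filter] at hk
          exact hbad k hk.2
      _ ≤ ∑ k ∈ range (e + 1), P * (4 * C + 1) / ε ^ 2 * (1 / (s + (k : ℝ) ^ 2)) := by
          apply sum_le_sum_of_subset_of_nonneg (filter_subset _ _)
          intro k _ _
          positivity
      _ = P * (4 * C + 1) / ε ^ 2 * ∑ k ∈ range (e + 1), (1 / (s + (k : ℝ) ^ 2)) := by
          rw [mul_sum]
      _ ≤ P * (4 * C + 1) / ε ^ 2 * (4 / q) :=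
          mul_le_mul_of_nonneg_left (sum_inv_sq q hq s hqs' _) (by positivity)
  · intro p hpP hp M hsM hMe
    -- the checkpoint
    set k := Nat.sqrt (M - s) with hk
    have hk1 : k ^ 2 ≤ M - s := Nat.sqrt_le' _
    have hk2 : M - s < (k + 1) ^ 2 := Nat.lt_succ_sqrt' _
    have hgood : ‖∑ m ∈ Ico s (s + k ^ 2), F m p‖ ≤ ε * (s + (k : ℝ) ^ 2) := by
      by_contra hcon
      push Not at hcon
      apply hp
      rw [hU, mem_biUnion]
      refine ⟨k, ?_, ?_⟩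
      · rw [hKK, mem_filter, mem_range]
        have : k ≤ k ^ 2 := Nat.le_self_pow (by norm_num) k
        omega
      · simp only [hBad, mem_filter]
        exact ⟨hpP, hcon⟩
    have hsplit : ∑ m ∈ Ico s M, F m p =
        ∑ m ∈ Ico s (s + k ^ 2), F m p + ∑ m ∈ Ico (s + k ^ 2) M, F m p :=
      (sum_Ico_consecutive _ (by omega) (by omega)).symm
    have hrest : ‖∑ m ∈ Ico (s + k ^ 2) M, F m p‖ ≤ 2 * k := by
      refine (norm_sum_le _ _).trans ?_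
      rw [sum_congr rfl (fun m _ => hF m p), sum_const, Nat.card_Ico, nsmul_eq_mul, mul_one]
      have : M - (s + k ^ 2) ≤ 2 * k := by
        have : (k + 1) ^ 2 = k ^ 2 + 2 * k + 1 := by ring
        omega
      exact_mod_cast this
    rw [hsplit]
    refine (norm_add_le _ _).trans ?_
    have hM : (s : ℝ) + (k : ℝ) ^ 2 ≤ M := by
      have : s + k ^ 2 ≤ M := by omega
      exact_mod_cast this
    have hk0 : (0 : ℝ) ≤ k := Nat.cast_nonneg _
    have h7 : 2 * (k : ℝ) ≤ ε * (s + (k : ℝ) ^ 2) := by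
      have h8 : 3 ≤ ε * q := by
        rw [div_le_iff₀ hε] at hqe
        linarith
      have h9 : 2 * (q : ℝ) * k ≤ s + (k : ℝ) ^ 2 := by nlinarith [sq_nonneg ((q : ℝ) - k)]
      calc 2 * (k : ℝ) ≤ (ε * q) * (2 * k) / 3 * (3/3) := by nlinarith
        _ ≤ ε * (2 * q * k) := by nlinarith [mul_nonneg (mul_nonneg hε.le (by linarith : (0:ℝ) ≤ q)) hk0]
        _ ≤ ε * (s + (k : ℝ) ^ 2) := mul_le_mul_of_nonneg_left h9 hε.le
    have h10 : ε * (s + (k : ℝ) ^ 2) ≤ ε * M := mul_le_mul_of_nonneg_left hM hε.le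
    linarith

end Pool.Agent.H443_recip
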