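import Pool.Agent.W28.NRRecip
import Pool.Agent.H443_recip.Cheb

set_option autoImplicit false

/-! Correlation bounds for the reciprocal phase `Z * R / (A + p)`. -/

namespace Pool.Agent.H443_recip

open Finset Pool.Agent.W28.NR

lemma pairS (R A P : ℕ) (Z : ℝ) (hA : 1 ≤ A) (hPA : P ≤ A) (hRA : R ≤ 2 * A) (hAR : A ≤ R)
    (hZ : 0 < Z) (hZR : 8 * Z ≤ R) :
    ‖∑ p ∈ range P, ex (Z * R / ((A : ℝ) + p))‖ ≤ 8 * R / Z := by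
  have hA' : (1 : ℝ) ≤ A := by exact_mod_cast hA
  have hR0 : (0 : ℝ) < R := by
    have : 0 < R := by omega
    exact_mod_cast this
  have hRA' : (R : ℝ) ≤ 2 * A := by exact_mod_cast hRA
  have hAR' : (A : ℝ) ≤ R := by exact_mod_cast hAR
  have hX : 0 < Z * R := by positivity
  refine (first_bound (Z * R) A P hA hPA hX ?_).trans ?_
  · rw [div_le_iff₀ (by positivity)]
    nlinarith
  · rw [div_le_div_iff₀ hX hZ]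
    nlinarith [mul_pos hZ hR0, mul_le_mul hAR' hAR' (by positivity) hR0.le]

lemma pairL : ∃ σ : ℝ, 0 < σ ∧ ∃ C : ℝ, 1 ≤ C ∧ ∀ (R A P H : ℕ) (W Z : ℝ), 1 ≤ P → P ≤ A →
    R ≤ 2 * A → A ≤ R → 0 < Z → 1 ≤ W → (R : ℝ) ≤ P * W → 4096 * W ^ 6 ≤ P →
    (R : ℝ) ≤ 4 * Z ^ 2 → Z ^ 2 ≤ (H : ℝ) ^ 2 * (R : ℝ) ^ 3 → 16 * H ^ 4 ≤ R →
    ‖∑ p ∈ range P, ex (Z * R / ((A : ℝ) + p))‖ ≤ C * (P : ℝ) ^ (1 - σ) := by
  obtain ⟨σ, hσ, C, hC, hsec⟩ := second_bound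
  refine ⟨σ, hσ, C, hC, ?_⟩
  intro R A P H W Z hP hPA hRA hAR hZ hW hRP hWP hRZ hZR hHR
  have hP' : (1 : ℝ) ≤ P := by exact_mod_cast hP
  have hP0 : (0 : ℝ) < P := by linarith
  have hA' : (1 : ℝ) ≤ A := by
    have : 1 ≤ A := hP.trans hPA
    exact_mod_cast this
  have hR0 : (0 : ℝ) < R := by
    have : 0 < R := by omega
    exact_mod_cast this
  have hRA' : (R : ℝ) ≤ 2 * A := by exact_mod_cast hRA
  have hAR' : (A : ℝ) ≤ R := by exact_mod_cast hAR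
  have hPR' : (P : ℝ) ≤ R := by
    have : P ≤ R := hPA.trans hAR
    exact_mod_cast this
  have hX : 0 < Z * R := by positivity
  have hA3 : (0 : ℝ) < (A : ℝ) ^ 3 := by positivity
  have hW0 : (0 : ℝ) < W := by linarith
  -- notation for quarter powers
  have hW32 : 8 * W ^ (3 / 2 : ℝ) ≤ (P : ℝ) ^ (1 / 4 : ℝ) := by
    have h1 : (4096 * W ^ 6) ^ (1 / 4 : ℝ) ≤ (P : ℝ) ^ (1 / 4 : ℝ) :=
      Real.rpow_le_rpow (by positivity) hWP (by norm_num)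
    have h2 : (4096 * W ^ 6) ^ (1 / 4 : ℝ) = 8 * W ^ (3 / 2 : ℝ) := by
      rw [Real.mul_rpow (by norm_num) (by positivity)]
      congr 1
      · rw [show (4096 : ℝ) = 8 ^ (4 : ℝ) by norm_num, ← Real.rpow_mul (by norm_num)]
        norm_num
      · rw [← Real.rpow_natCast, ← Real.rpow_mul hW0.le]
        norm_num
    rw [h2] at h1
    exact h1
  have hR32 : (R : ℝ) ^ (3 / 2 : ℝ) ≤ (P : ℝ) ^ (3 / 2 : ℝ) * W ^ (3 / 2 : ℝ) := by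
    rw [← Real.mul_rpow hP0.le hW0.le]
    exact Real.rpow_le_rpow hR0.le hRP (by norm_num)
  have hRhalf : (R : ℝ) ^ (1 / 2 : ℝ) ≤ 2 * Z := by
    have h1 : (R : ℝ) ≤ (2 * Z) ^ 2 := by nlinarith
    calc (R : ℝ) ^ (1 / 2 : ℝ) ≤ ((2 * Z) ^ 2) ^ (1 / 2 : ℝ) :=
          Real.rpow_le_rpow hR0.le h1 (by norm_num)
      _ = 2 * Z := by
          rw [← Real.rpow_natCast, ← Real.rpow_mul (by positivity)]
          norm_num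
  have hR3 : (R : ℝ) ^ 3 = (R : ℝ) ^ (3 / 2 : ℝ) * (R : ℝ) ^ (3 / 2 : ℝ) := by
    rw [← Real.rpow_add hR0, ← Real.rpow_natCast]
    norm_num
  have hRR : (R : ℝ) ^ (3 / 2 : ℝ) = (R : ℝ) ^ (1 / 2 : ℝ) * R := by
    nth_rewrite 3 [← Real.rpow_one (R : ℝ)]
    rw [← Real.rpow_add hR0]
    norm_num
  have hR32pos : 0 < (R : ℝ) ^ (3 / 2 : ℝ) := Real.rpow_pos_of_pos hR0 _
  refine hsec (Z * R) A P hP hPA hX ?_ ?_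
  · rw [le_div_iff₀ (by positivity)]
    have e1 : (P : ℝ) ^ (-(7 / 4) : ℝ) * (P : ℝ) ^ (3 / 2 : ℝ) = (P : ℝ) ^ (-(1 / 4) : ℝ) := by
      rw [← Real.rpow_add hP0]; norm_num
    have e2 : (P : ℝ) ^ (-(1 / 4) : ℝ) * (P : ℝ) ^ (1 / 4 : ℝ) = 1 := by
      rw [← Real.rpow_add hP0]; norm_num
    have hPm : 0 < (P : ℝ) ^ (-(1 / 4) : ℝ) := Real.rpow_pos_of_pos hP0 _
    calc (P : ℝ) ^ (-(7 / 4) : ℝ) * (4 * (A : ℝ) ^ 3)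
        ≤ (P : ℝ) ^ (-(7 / 4) : ℝ) * (4 * (R : ℝ) ^ 3) := by gcongr
      _ = 4 * ((P : ℝ) ^ (-(7 / 4) : ℝ) * (R : ℝ) ^ (3 / 2 : ℝ)) * (R : ℝ) ^ (3 / 2 : ℝ) := by
          rw [hR3]; ring
      _ ≤ 4 * ((P : ℝ) ^ (-(7 / 4) : ℝ) * ((P : ℝ) ^ (3 / 2 : ℝ) * W ^ (3 / 2 : ℝ)))
            * (R : ℝ) ^ (3 / 2 : ℝ) := by gcongr
      _ = 4 * ((P : ℝ) ^ (-(1 / 4) : ℝ) * W ^ (3 / 2 : ℝ)) * (R : ℝ) ^ (3 / 2 : ℝ) := by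
          rw [← mul_assoc ((P : ℝ) ^ (-(7 / 4) : ℝ)), e1]
      _ ≤ 4 * (1 / 8) * (R : ℝ) ^ (3 / 2 : ℝ) := by
          have : (P : ℝ) ^ (-(1 / 4) : ℝ) * W ^ (3 / 2 : ℝ) ≤ 1 / 8 := by
            have h3 : (P : ℝ) ^ (-(1 / 4) : ℝ) * (8 * W ^ (3 / 2 : ℝ)) ≤
                (P : ℝ) ^ (-(1 / 4) : ℝ) * (P : ℝ) ^ (1 / 4 : ℝ) :=
              mul_le_mul_of_nonneg_left hW32 hPm.le
            rw [e2] at h3
            linarith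
          gcongr
      _ = 1 / 2 * ((R : ℝ) ^ (1 / 2 : ℝ) * R) := by rw [hRR]; ring
      _ ≤ 1 / 2 * ((2 * Z) * R) := by gcongr
      _ = Z * R := by ring
  · rw [div_le_iff₀ (by positivity)]
    have hZH : Z ≤ H * (R : ℝ) ^ (3 / 2 : ℝ) := by
      have h1 : Z ^ 2 ≤ (H * (R : ℝ) ^ (3 / 2 : ℝ)) ^ 2 := by
        rw [mul_pow]
        have : ((R : ℝ) ^ (3 / 2 : ℝ)) ^ 2 = (R : ℝ) ^ 3 := by rw [hR3]; ring
        rw [this]; exact hZR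
      exact (abs_le_of_sq_le_sq' h1 (by positivity)).2
    have hH14 : 2 * (H : ℝ) ≤ (R : ℝ) ^ (1 / 4 : ℝ) := by
      have h1 : (16 * (H : ℝ) ^ 4) ≤ R := by exact_mod_cast hHR
      have h2 : (16 * (H : ℝ) ^ 4) ^ (1 / 4 : ℝ) ≤ (R : ℝ) ^ (1 / 4 : ℝ) :=
        Real.rpow_le_rpow (by positivity) h1 (by norm_num)
      have h3 : (16 * (H : ℝ) ^ 4) ^ (1 / 4 : ℝ) = 2 * H := by
        have : (16 * (H : ℝ) ^ 4) = (2 * H) ^ 4 := by ring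
        rw [this, ← Real.rpow_natCast, ← Real.rpow_mul (by positivity)]
        norm_num
      rw [h3] at h2; exact h2
    have e3 : (R : ℝ) ^ (3 / 2 : ℝ) * (R : ℝ) ^ (1 / 4 : ℝ) * (R : ℝ) ^ (1 / 4 : ℝ) = (R : ℝ) ^ 2 := by
      rw [← Real.rpow_add hR0, ← Real.rpow_add hR0, ← Real.rpow_natCast]
      norm_num
    have hPq : (P : ℝ) ^ (1 / 4 : ℝ) ≤ (R : ℝ) ^ (1 / 4 : ℝ) :=
      Real.rpow_le_rpow hP0.le hPR' (by norm_num)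
    have e4 : (P : ℝ) ^ (-(1 / 4) : ℝ) * (P : ℝ) ^ (1 / 4 : ℝ) = 1 := by
      rw [← Real.rpow_add hP0]; norm_num
    have hPp : 0 < (P : ℝ) ^ (1 / 4 : ℝ) := Real.rpow_pos_of_pos hP0 _
    have hPm : 0 < (P : ℝ) ^ (-(1 / 4) : ℝ) := Real.rpow_pos_of_pos hP0 _
    have h4 : 2 * Z * (P : ℝ) ^ (1 / 4 : ℝ) ≤ (R : ℝ) ^ 2 := by
      calc 2 * Z * (P : ℝ) ^ (1 / 4 : ℝ)
          ≤ 2 * (H * (R : ℝ) ^ (3 / 2 : ℝ)) * (R : ℝ) ^ (1 / 4 : ℝ) := by gcongr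
        _ = (2 * H) * ((R : ℝ) ^ (3 / 2 : ℝ) * (R : ℝ) ^ (1 / 4 : ℝ)) := by ring
        _ ≤ (R : ℝ) ^ (1 / 4 : ℝ) * ((R : ℝ) ^ (3 / 2 : ℝ) * (R : ℝ) ^ (1 / 4 : ℝ)) := by
            gcongr
        _ = (R : ℝ) ^ 2 := by rw [← e3]; ring
    have h5 : (R : ℝ) ^ 3 ≤ 8 * (A : ℝ) ^ 3 := by
      calc (R : ℝ) ^ 3 ≤ (2 * A) ^ 3 := by gcongr
        _ = _ := by ring
    have h6 : Z * R * (P : ℝ) ^ (1 / 4 : ℝ) ≤ 4 * (A : ℝ) ^ 3 := by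
      have : Z * R * (P : ℝ) ^ (1 / 4 : ℝ) = (2 * Z * (P : ℝ) ^ (1 / 4 : ℝ)) * R / 2 := by ring
      rw [this]
      have h7 : (2 * Z * (P : ℝ) ^ (1 / 4 : ℝ)) * R ≤ (R : ℝ) ^ 2 * R := by gcongr
      have h8 : (R : ℝ) ^ 2 * R = (R : ℝ) ^ 3 := by ring
      linarith
    calc Z * R = (P : ℝ) ^ (-(1 / 4) : ℝ) * (P : ℝ) ^ (1 / 4 : ℝ) * (Z * R) := by rw [e4, one_mul]
      _ = (P : ℝ) ^ (-(1 / 4) : ℝ) * (Z * R * (P : ℝ) ^ (1 / 4 : ℝ)) := by ring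
      _ ≤ (P : ℝ) ^ (-(1 / 4) : ℝ) * (4 * (A : ℝ) ^ 3) := by gcongr

end Pool.Agent.H443_recip
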