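import Pool.Agent.H443_recip.Pair
import Pool.Agent.W28.NRFinalRecip

set_option autoImplicit false

/-! One stage of the construction, for all bases `b ≤ B` at once. -/

namespace Pool.Agent.H443_recip

open Finset Filter Topology Pool.Agent.W28.NR

lemma log_le_aux (b r N : ℕ) (hb : 2 ≤ b) : Nat.log b (r ^ (N + N / 2)) ≤ 2 * r * N := by
  calc Nat.log b (r ^ (N + N / 2)) ≤ Nat.log 2 (r ^ (N + N / 2)) := Nat.log_anti_left (by norm_num) hb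
    _ ≤ Nat.log 2 (2 ^ (r * (N + N / 2))) := by
        apply Nat.log_mono_right
        rw [pow_mul]
        exact Nat.pow_le_pow_left Nat.lt_two_pow_self.le _
    _ = r * (N + N / 2) := Nat.log_pow (by norm_num) _
    _ ≤ 2 * r * N := by
        have : N + N / 2 ≤ 2 * N := by omega
        calc r * (N + N / 2) ≤ r * (2 * N) := Nat.mul_le_mul_left _ this
          _ = _ := by ring

/-- The correlation estimate. -/
lemma corr (σ C2 : ℝ)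
    (hL : ∀ (R A P H : ℕ) (W Z : ℝ), 1 ≤ P → P ≤ A →
      R ≤ 2 * A → A ≤ R → 0 < Z → 1 ≤ W → (R : ℝ) ≤ P * W → 4096 * W ^ 6 ≤ P →
      (R : ℝ) ≤ 4 * Z ^ 2 → Z ^ 2 ≤ (H : ℝ) ^ 2 * (R : ℝ) ^ 3 → 16 * H ^ 4 ≤ R →
      ‖∑ p ∈ range P, ex (Z * R / ((A : ℝ) + p))‖ ≤ C2 * (P : ℝ) ^ (1 - σ))
    (hC2 : 1 ≤ C2)
    (B H Q R A P b h m' m : ℕ) (hQ : 1 ≤ Q) (hP : 1 ≤ P) (hPA : P ≤ A) (hRA : R ≤ 2 * A) (hAR : A ≤ R)
    (hRP : R ≤ 2 * Q * P) (hWP : 4096 * (2 * Q) ^ 6 ≤ P) (hH1 : 16 * H ^ 4 ≤ R) (hH2 : 64 * H ^ 2 ≤ R)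
    (hb : 2 ≤ b) (hbB : b ≤ B) (hh : 1 ≤ h) (hhH : h ≤ H) (hs : Nat.log b Q ≤ m') (hm : m' < m)
    (hmR : (b ^ m) ^ 2 ≤ R ^ 3) :
    ‖∑ p ∈ range P, ex (h * ((b : ℝ) ^ m * ((((A + p : ℕ)) : ℝ) / R)⁻¹)) *
      (starRingEnd ℂ) (ex (h * ((b : ℝ) ^ m' * ((((A + p : ℕ)) : ℝ) / R)⁻¹)))‖ ≤
      P * ((32 * B : ℝ) / 2 ^ (m - Nat.log b Q) + C2 * (P : ℝ) ^ (-σ)) := by
  have hb' : (2 : ℝ) ≤ b := by exact_mod_cast hb
  have hbB' : (b : ℝ) ≤ B := by exact_mod_cast hbB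
  have hh' : (1 : ℝ) ≤ h := by exact_mod_cast hh
  have hhH' : (h : ℝ) ≤ H := by exact_mod_cast hhH
  have hP' : (1 : ℝ) ≤ P := by exact_mod_cast hP
  have hP0 : (0 : ℝ) < P := by linarith
  have hR1 : 1 ≤ R := by omega
  have hR0 : (0 : ℝ) < R := by exact_mod_cast hR1
  have hbm : (0 : ℝ) < (b : ℝ) ^ m := by positivity
  have hmm : (b : ℝ) ^ m' * 2 ≤ (b : ℝ) ^ m := by
    calc (b : ℝ) ^ m' * 2 ≤ (b : ℝ) ^ m' * b := by gcongr
      _ = (b : ℝ) ^ (m' + 1) := by rw [pow_succ]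
      _ ≤ (b : ℝ) ^ m := pow_le_pow_right₀ (by linarith) hm
  have hbm' : (0 : ℝ) < (b : ℝ) ^ m' := by positivity
  set Z : ℝ := h * ((b : ℝ) ^ m - (b : ℝ) ^ m') with hZ
  have hZlow : (b : ℝ) ^ m / 2 ≤ Z := by rw [hZ]; nlinarith
  have hZup : Z ≤ H * (b : ℝ) ^ m := by
    rw [hZ]
    have h1 : (b : ℝ) ^ m - (b : ℝ) ^ m' ≤ (b : ℝ) ^ m := by linarith
    have h2 : 0 ≤ (b : ℝ) ^ m - (b : ℝ) ^ m' := by linarith
    exact mul_le_mul hhH' h1 h2 (by linarith)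
  have hZ0 : 0 < Z := lt_of_lt_of_le (by positivity) hZlow
  have hsum : ∑ p ∈ range P, ex (h * ((b : ℝ) ^ m * ((((A + p : ℕ)) : ℝ) / R)⁻¹)) *
      (starRingEnd ℂ) (ex (h * ((b : ℝ) ^ m' * ((((A + p : ℕ)) : ℝ) / R)⁻¹)))
      = ∑ p ∈ range P, ex (Z * R / ((A : ℝ) + p)) := by
    apply sum_congr rfl
    intro p _
    rw [ex_mul_conj]
    congr 1
    rw [inv_div, hZ]
    push_cast
    ring
  rw [hsum]
  have hκ0 : 0 ≤ C2 * (P : ℝ) ^ (-σ) := by positivity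
  have hRP' : (R : ℝ) ≤ 2 * Q * P := by exact_mod_cast hRP
  have hB0 : (0 : ℝ) ≤ B := by linarith
  by_cases hcase : ((b : ℝ) ^ m) ^ 2 ≤ R
  · have hA1 : 1 ≤ A := hP.trans hPA
    have h8 : 8 * Z ≤ R := by
      have h1 : 8 * Z ≤ 8 * (H * (b : ℝ) ^ m) := by linarith
      have h2 : (8 * (H * (b : ℝ) ^ m)) ^ 2 ≤ (R : ℝ) ^ 2 := by
        have h3 : (64 * (H : ℝ) ^ 2) ≤ R := by exact_mod_cast hH2
        calc (8 * (H * (b : ℝ) ^ m)) ^ 2 = (64 * (H : ℝ) ^ 2) * ((b : ℝ) ^ m) ^ 2 := by ring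
          _ ≤ (R : ℝ) * (R : ℝ) := by gcongr
          _ = (R : ℝ) ^ 2 := by ring
      exact h1.trans (abs_le_of_sq_le_sq' h2 hR0.le).2
    refine (pairS R A P Z hA1 hPA hRA hAR hZ0 h8).trans ?_
    have hlog : (Q : ℝ) ≤ b * (b : ℝ) ^ (Nat.log b Q) := by
      have h1 : Q < b ^ (Nat.log b Q + 1) := Nat.lt_pow_succ_log_self (by omega) Q
      have h2 : Q ≤ b * b ^ (Nat.log b Q) := by rw [← pow_succ']; exact h1.le
      exact_mod_cast h2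
    have hsplit : (b : ℝ) ^ (Nat.log b Q) * 2 ^ (m - Nat.log b Q) ≤ (b : ℝ) ^ m := by
      calc (b : ℝ) ^ (Nat.log b Q) * 2 ^ (m - Nat.log b Q)
          ≤ (b : ℝ) ^ (Nat.log b Q) * (b : ℝ) ^ (m - Nat.log b Q) := by gcongr
        _ = (b : ℝ) ^ m := by rw [← pow_add]; congr 1; omega
    have h1 : 8 * R / Z ≤ P * ((32 * B : ℝ) / 2 ^ (m - Nat.log b Q)) := by
      rw [div_le_iff₀ hZ0]
      have h2pos : (0 : ℝ) < 2 ^ (m - Nat.log b Q) := by positivity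
      calc 8 * (R : ℝ) ≤ 8 * (2 * Q * P) := by gcongr
        _ ≤ 8 * (2 * (b * (b : ℝ) ^ (Nat.log b Q)) * P) := by gcongr
        _ = P * (32 * b / 2 ^ (m - Nat.log b Q)) *
            (((b : ℝ) ^ (Nat.log b Q) * 2 ^ (m - Nat.log b Q)) / 2) := by
            field_simp; ring
        _ ≤ P * (32 * B / 2 ^ (m - Nat.log b Q)) * ((b : ℝ) ^ m / 2) := by gcongr
        _ ≤ P * (32 * B / 2 ^ (m - Nat.log b Q)) * Z := by gcongr
    refine h1.trans ?_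
    apply mul_le_mul_of_nonneg_left _ hP0.le
    linarith
  · push Not at hcase
    have hQ' : (1 : ℝ) ≤ Q := by exact_mod_cast hQ
    have h1 := hL R A P H (2 * Q) Z hP hPA hRA hAR hZ0 (by linarith)
      (by linarith) (by exact_mod_cast hWP)
      (by nlinarith)
      (by
        have h2 : ((b : ℝ) ^ m) ^ 2 ≤ (R : ℝ) ^ 3 := by exact_mod_cast hmR
        calc Z ^ 2 ≤ (H * (b : ℝ) ^ m) ^ 2 := by gcongr
          _ = (H : ℝ) ^ 2 * ((b : ℝ) ^ m) ^ 2 := by ring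
          _ ≤ (H : ℝ) ^ 2 * (R : ℝ) ^ 3 := by gcongr)
      hH1
    refine h1.trans ?_
    have e : C2 * (P : ℝ) ^ (1 - σ) = P * (C2 * (P : ℝ) ^ (-σ)) := by
      rw [sub_eq_add_neg, Real.rpow_add hP0, Real.rpow_one]; ring
    rw [e]
    apply mul_le_mul_of_nonneg_left _ hP0.le
    have : 0 ≤ (32 * B : ℝ) / 2 ^ (m - Nat.log b Q) := by positivity
    linarith

theorem stage (B H : ℕ) (ε : ℝ) (hε : 0 < ε) : ∃ Q0 : ℕ, ∀ Q a : ℕ, Q0 ≤ Q → Q ≤ 2 * a → a < Q →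
    ∀ r : ℕ, 2 ≤ r → ∀ N0 : ℕ, ∃ N A : ℕ, N0 ≤ N ∧ a * r ^ N ≤ A * Q ∧
      (A + 1) * Q ≤ (a + 1) * r ^ N ∧
      ∀ b, 2 ≤ b → b ≤ B → ∀ h, 1 ≤ h → h ≤ H → ∀ M, Nat.log b Q ≤ M →
        M ≤ Nat.log b (r ^ (N + N / 2)) →
        ‖∑ m ∈ Ico (Nat.log b Q) M, ex (h * ((b : ℝ) ^ m * ((A : ℝ) / (r : ℝ) ^ N)⁻¹))‖ ≤ ε * M := by
  obtain ⟨σ, hσ, C2, hC2, hL⟩ := pairL
  set C : ℝ := 32 * B with hC
  have hC0 : 0 ≤ C := by positivity
  set ε' : ℝ := ε / 2 with hε'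
  have hε'0 : 0 < ε' := by positivity
  obtain ⟨q, hq⟩ := exists_nat_gt (max (B * H * ((4 * C + 1) / ε' ^ 2 * 4)) (max (3 / ε') 1))
  have hq1 : B * H * ((4 * C + 1) / ε' ^ 2 * 4) < q := lt_of_le_of_lt (le_max_left _ _) hq
  have hq2 : 3 / ε' < q := lt_of_le_of_lt ((le_max_left _ _).trans (le_max_right _ _)) hq
  have hq3 : (1 : ℝ) < q := lt_of_le_of_lt ((le_max_right _ _).trans (le_max_right _ _)) hq
  have hq4 : 1 ≤ q := by
    have : 1 < q := by exact_mod_cast hq3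
    omega
  refine ⟨(B + 2) ^ (q ^ 2), ?_⟩
  intro Q a hQ0 hQa haQ r hr N0
  have hQ1 : 1 ≤ Q := by omega
  have ha1 : 1 ≤ a := by omega
  set ρ : ℝ := (2 : ℝ) ^ (-σ) with hρ
  have hρ0 : 0 ≤ ρ := by positivity
  have hρ1 : ρ < 1 := by
    rw [hρ]
    apply Real.rpow_lt_one_of_one_lt_of_neg (by norm_num) (by linarith)
  set K1 : ℕ := 4096 * (2 * Q) ^ 6 * (2 * Q) + 16 * H ^ 4 + 64 * H ^ 2 + 4 * Q with hK1
  obtain ⟨N, hN1, hN2⟩ := ((sq_mul_pow_small (C2 * (2 * (Q : ℝ)) ^ σ * (r : ℝ) ^ 2) ρ hρ0 hρ1).and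
    (eventually_ge_atTop (N0 + K1))).exists
  set R : ℕ := r ^ N with hR
  have hNR : N ≤ R := (Nat.lt_pow_self (by omega : 1 < r)).le
  have hRK : K1 ≤ R := by omega
  have h2N : 2 ^ N ≤ R := Nat.pow_le_pow_left hr N
  set P : ℕ := R / Q - 1 with hP
  set A0 : ℕ := a * R / Q + 1 with hA0
  have hdm := Nat.div_add_mod R Q
  have hmod := Nat.mod_lt R (show 0 < Q by omega)
  have hQd : 4 ≤ R / Q := by
    rw [Nat.le_div_iff_mul_le (by omega)]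
    omega
  have hRP : R ≤ 2 * Q * P := by
    have h1 : Q * (R / Q) = Q * P + Q := by
      have : R / Q = P + 1 := by omega
      rw [this]; ring
    have h2 : 2 * Q * P = 2 * (Q * P) := by ring
    omega
  have hP1 : 1 ≤ P := by omega
  have hPA : P ≤ A0 := by
    have : R / Q ≤ a * R / Q := Nat.div_le_div_right (Nat.le_mul_of_pos_left _ (by omega))
    omega
  have hdm2 := Nat.div_add_mod (a * R) Q
  have hmod2 := Nat.mod_lt (a * R) (show 0 < Q by omega)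
  have hA0lt : a * R < Q * A0 := by
    rw [hA0, mul_add, mul_one]; omega
  have hRA : R ≤ 2 * A0 := by
    have h1 : Q * R ≤ Q * (2 * A0) := by
      calc Q * R ≤ (2 * a) * R := Nat.mul_le_mul_right _ hQa
        _ = 2 * (a * R) := by ring
        _ ≤ 2 * (Q * A0) := by omega
        _ = Q * (2 * A0) := by ring
    exact Nat.le_of_mul_le_mul_left h1 (by omega)
  have hAP : Q * (A0 + P) ≤ (a + 1) * R := by
    have h1 : A0 + P = a * R / Q + R / Q := by omega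
    rw [h1, mul_add]
    have h2 : (a + 1) * R = a * R + R := by ring
    rw [h2]; omega
  have hAR : A0 ≤ R := by
    have h1 : Q * (A0 + P) ≤ Q * R := hAP.trans (Nat.mul_le_mul_right _ (by omega))
    have h2 := Nat.le_of_mul_le_mul_left h1 (by omega)
    omega
  have hWP : 4096 * (2 * Q) ^ 6 ≤ P := by
    have h1 : (2 * Q) * (4096 * (2 * Q) ^ 6) ≤ (2 * Q) * P := by
      calc (2 * Q) * (4096 * (2 * Q) ^ 6) = 4096 * (2 * Q) ^ 6 * (2 * Q) := by ring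
        _ ≤ K1 := by rw [hK1]; omega
        _ ≤ R := hRK
        _ ≤ 2 * Q * P := hRP
    exact Nat.le_of_mul_le_mul_left h1 (by omega)
  have hH1 : 16 * H ^ 4 ≤ R := le_trans (by rw [hK1]; omega) hRK
  have hH2 : 64 * H ^ 2 ≤ R := le_trans (by rw [hK1]; omega) hRK
  have hP0 : (0 : ℝ) < P := by exact_mod_cast hP1
  have hQ0' : (0 : ℝ) < Q := by exact_mod_cast hQ1
  set κ : ℝ := C2 * (P : ℝ) ^ (-σ) with hκ
  have hκ0 : 0 ≤ κ := by positivity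
  have hκN : κ * ((2 * r * N : ℕ) : ℝ) ^ 2 ≤ 1 := by
    refine le_trans ?_ hN1
    have h1 : (2 : ℝ) ^ N / (2 * Q) ≤ P := by
      rw [div_le_iff₀ (by positivity)]
      have h3 : 2 ^ N ≤ 2 * Q * P := h2N.trans hRP
      have h4 : (2 : ℝ) ^ N ≤ 2 * Q * P := by exact_mod_cast h3
      linarith
    have h2 : (P : ℝ) ^ (-σ) ≤ (2 * (Q : ℝ)) ^ σ * ρ ^ N := by
      calc (P : ℝ) ^ (-σ) ≤ ((2 : ℝ) ^ N / (2 * Q)) ^ (-σ) :=
            Real.rpow_le_rpow_of_nonpos (by positivity) h1 (by linarith)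
        _ = (2 * (Q : ℝ)) ^ σ * ρ ^ N := by
            rw [Real.div_rpow (by positivity) (by positivity), Real.rpow_neg (by positivity) σ,
              Real.rpow_neg (by positivity) σ, hρ, ← Real.rpow_natCast, ← Real.rpow_natCast,
              ← Real.rpow_mul (by norm_num), ← Real.rpow_mul (by norm_num),
              ← Real.rpow_neg (by norm_num)]
            rw [show -(↑N * σ) = -σ * ↑N by ring]
            field_simp
    have h3 : κ ≤ C2 * ((2 * (Q : ℝ)) ^ σ * ρ ^ N) := by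
      rw [hκ]; gcongr
    calc κ * ((2 * r * N : ℕ) : ℝ) ^ 2 ≤ (C2 * ((2 * (Q : ℝ)) ^ σ * ρ ^ N)) * ((2 * r * N : ℕ) : ℝ) ^ 2 := by
          gcongr
      _ = C2 * (2 * (Q : ℝ)) ^ σ * (r : ℝ) ^ 2 * ρ ^ N * (2 * (N : ℝ)) ^ 2 := by push_cast; ring
      _ ≤ C2 * (2 * (Q : ℝ)) ^ σ * (r : ℝ) ^ 2 * ρ ^ N * (4 * (N : ℝ)) ^ 2 := by
          gcongr; norm_num
  have hU : ∀ b h : ℕ, 2 ≤ b → b ≤ B → 1 ≤ h → h ≤ H →
      ∃ U : Finset ℕ, (U.card : ℝ) ≤ P * (4 * C + 1) / ε' ^ 2 * (4 / q) ∧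
      ∀ p ∈ range P, p ∉ U → ∀ M, Nat.log b Q ≤ M → M ≤ Nat.log b (r ^ (N + N / 2)) →
      ‖∑ m ∈ Ico (Nat.log b Q) M, ex (h * ((b : ℝ) ^ m * ((((A0 + p : ℕ)) : ℝ) / R)⁻¹))‖ ≤
        2 * ε' * M := by
    intro b h hb2 hbB hh1 hhH
    apply cheb1 P (Nat.log b Q) (Nat.log b (r ^ (N + N / 2)))
      (fun m p => ex (h * ((b : ℝ) ^ m * ((((A0 + p : ℕ)) : ℝ) / R)⁻¹))) (fun m p => norm_ex _)
      C κ ε' hC0 hκ0 hε'0 ?_ q hq4 ?_ hq2.le ?_
    · refine le_trans ?_ hκN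
      apply mul_le_mul_of_nonneg_left _ hκ0
      apply pow_le_pow_left₀ (by positivity)
      have := log_le_aux b r N hb2
      have h1 : Nat.log b (r ^ (N + N / 2)) - Nat.log b Q ≤ 2 * r * N := by omega
      exact_mod_cast h1
    · apply Nat.le_log_of_pow_le (by omega)
      exact (Nat.pow_le_pow_left (by omega) _).trans hQ0
    · intro m' m hm1 hm2 hm3
      apply corr σ C2 hL hC2 B H Q R A0 P b h m' m hQ1 hP1 hPA hRA hAR hRP hWP hH1 hH2 hb2 hbB hh1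
        hhH hm1 hm2
      have h1 : b ^ m ≤ r ^ (N + N / 2) := by
        have h2 : b ^ (Nat.log b (r ^ (N + N / 2))) ≤ r ^ (N + N / 2) :=
          Nat.pow_log_le_self _ (by positivity)
        exact (Nat.pow_le_pow_right (by omega) hm3.le).trans h2
      calc (b ^ m) ^ 2 ≤ (r ^ (N + N / 2)) ^ 2 := Nat.pow_le_pow_left h1 2
        _ = r ^ (2 * (N + N / 2)) := by rw [← pow_mul]; congr 1; ring
        _ ≤ r ^ (3 * N) := Nat.pow_le_pow_right (by omega) (by omega)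
        _ = R ^ 3 := by rw [hR, ← pow_mul]; congr 1; ring
  choose! U hU1 hU2 using hU
  set T : Finset ℕ := (Icc 2 B ×ˢ Icc 1 H).biUnion (fun x => U x.1 x.2) with hT
  have hTc : (T.card : ℝ) < P := by
    have h1 : (T.card : ℝ) ≤ ∑ x ∈ Icc 2 B ×ˢ Icc 1 H, ((U x.1 x.2).card : ℝ) := by
      have : T.card ≤ ∑ x ∈ Icc 2 B ×ˢ Icc 1 H, (U x.1 x.2).card := card_biUnion_le
      exact_mod_cast this
    have h2 : ∑ x ∈ Icc 2 B ×ˢ Icc 1 H, ((U x.1 x.2).card : ℝ) ≤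
        ∑ x ∈ Icc 2 B ×ˢ Icc 1 H, P * (4 * C + 1) / ε' ^ 2 * (4 / q) := by
      apply sum_le_sum
      intro x hx
      rw [mem_product, mem_Icc, mem_Icc] at hx
      exact hU1 x.1 x.2 hx.1.1 hx.1.2 hx.2.1 hx.2.2
    rw [sum_const, nsmul_eq_mul] at h2
    have h3 : (((Icc 2 B ×ˢ Icc 1 H).card : ℕ) : ℝ) ≤ B * H := by
      rw [card_product, Nat.card_Icc, Nat.card_Icc]
      have : (B + 1 - 2) * (H + 1 - 1) ≤ B * H := by
        apply Nat.mul_le_mul <;> omega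
      exact_mod_cast this
    have hterm : 0 ≤ P * (4 * C + 1) / ε' ^ 2 * (4 / q) := by positivity
    have hqpos : (0 : ℝ) < q := by linarith
    calc (T.card : ℝ) ≤ (((Icc 2 B ×ˢ Icc 1 H).card : ℕ) : ℝ) * (P * (4 * C + 1) / ε' ^ 2 * (4 / q)) :=
          h1.trans h2
      _ ≤ (B * H) * (P * (4 * C + 1) / ε' ^ 2 * (4 / q)) := mul_le_mul_of_nonneg_right h3 hterm
      _ = P * ((B * H * ((4 * C + 1) / ε' ^ 2 * 4)) / q) := by field_simp
      _ < P * 1 := by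
          apply mul_lt_mul_of_pos_left _ hP0
          rw [div_lt_one hqpos]; exact hq1
      _ = P := mul_one _
  obtain ⟨p, hpP, hpT⟩ : ∃ p ∈ range P, p ∉ T := by
    by_contra hcon
    push Not at hcon
    have h1 : range P ⊆ T := fun p hp => hcon p hp
    have h2 := card_le_card h1
    rw [card_range] at h2
    have h3 : (P : ℝ) ≤ T.card := by exact_mod_cast h2
    linarith
  have hpP' := mem_range.1 hpP
  refine ⟨N, A0 + p, by omega, ?_, ?_, ?_⟩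
  · calc a * R ≤ Q * A0 := hA0lt.le
      _ ≤ Q * (A0 + p) := Nat.mul_le_mul_left _ (by omega)
      _ = (A0 + p) * Q := by ring
  · calc (A0 + p + 1) * Q ≤ (A0 + P) * Q := Nat.mul_le_mul_right _ (by omega)
      _ = Q * (A0 + P) := by ring
      _ ≤ (a + 1) * R := hAP
  · intro b hb2 hbB h hh1 hhH M hM1 hM2
    have hpU : p ∉ U b h := by
      intro hmem
      apply hpT
      rw [hT, mem_biUnion]
      exact ⟨(b, h), by rw [mem_product, mem_Icc, mem_Icc]; exact ⟨⟨hb2, hbB⟩, hh1, hhH⟩, hmem⟩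
    have := hU2 b h hb2 hbB hh1 hhH p hpP hpU M hM1 hM2
    have e1 : ((R : ℕ) : ℝ) = (r : ℝ) ^ N := by rw [hR]; push_cast; ring
    rw [e1] at this
    refine this.trans (le_of_eq ?_)
    rw [hε']; ring

end Pool.Agent.H443_recip
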